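import Pool.Agent.W_626p_h88.Kern

/-!
# Bohr sets of a Bourgain system: upper bound, lower bound, halving
-/

set_option autoImplicit false

namespace Pool.Agent.PDual

open Finset
open scoped Pointwise

variable {M : ℕ} [NeZero M]

theorem re_ge_half {z : ℂ} (hz : ‖z‖ = 1) (h : ‖1 - z‖ ≤ 1) : 1 / 2 ≤ z.re := by
  have h1 : ‖1 - z‖ ^ 2 ≤ 1 := pow_le_one₀ (norm_nonneg _) h
  rw [← Complex.normSq_eq_norm_sq, Complex.normSq_apply] at h1
  have h2 : ‖z‖ ^ 2 = 1 := by rw [hz]; norm_num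
  rw [← Complex.normSq_eq_norm_sq, Complex.normSq_apply] at h2
  simp only [Complex.sub_re, Complex.one_re, Complex.sub_im, Complex.one_im] at h1
  nlinarith

/-- UPPER BOUND. -/
theorem bo_upper (B : Finset (ZMod M)) (hB : B.Nonempty) :
    ((bo B 1).card : ℝ) * B.card ≤ 4 * M := by
  have hBn : (0 : ℝ) < B.card := by exact_mod_cast hB.card_pos
  have h1 : ∀ x ∈ bo B 1, ((B.card : ℝ) / 2) ^ 2 ≤ ‖hat B x‖ ^ 2 := by
    intro x hx
    rw [mem_bo] at hx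
    have h2 : (B.card : ℝ) / 2 ≤ ‖hat B x‖ := by
      calc (B.card : ℝ) / 2 = ∑ _ξ ∈ B, (1 / 2 : ℝ) := by
            rw [Finset.sum_const, nsmul_eq_mul]; ring
        _ ≤ ∑ ξ ∈ B, (ps (x * ξ)).re :=
            Finset.sum_le_sum fun ξ hξ => re_ge_half (norm_ps _) (hx ξ hξ)
        _ = (hat B x).re := by unfold hat; rw [Complex.re_sum]
        _ ≤ ‖hat B x‖ := Complex.re_le_norm _
    gcongr
  have h3 : ((bo B 1).card : ℝ) * ((B.card : ℝ) / 2) ^ 2 ≤ M * B.card := by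
    calc ((bo B 1).card : ℝ) * ((B.card : ℝ) / 2) ^ 2 = ∑ _x ∈ bo B 1, ((B.card : ℝ) / 2) ^ 2 := by
          rw [Finset.sum_const, nsmul_eq_mul]
      _ ≤ ∑ x ∈ bo B 1, ‖hat B x‖ ^ 2 := Finset.sum_le_sum h1
      _ ≤ ∑ x, ‖hat B x‖ ^ 2 :=
          Finset.sum_le_sum_of_subset_of_nonneg (Finset.subset_univ _) fun _ _ _ => by positivity
      _ = M * B.card := parseval_hat B
  refine le_of_mul_le_mul_right ?_ hBn
  linarith

/-- LOWER BOUND. -/
theorem bo_lower (D P W : Finset (ZMod M)) (hD : D.Nonempty) (m : ℕ) (hW : fs D (m + 1) ⊆ W)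
    (hWne : W.Nonempty) (hP : ∀ x, x ∉ P → ‖hat D x‖ ≤ D.card / 2)
    (hm : 2 * (W.card : ℝ) ≤ 4 ^ m * D.card) :
    (M : ℝ) ≤ 2 * W.card * P.card := by
  classical
  obtain ⟨g, hg0, hg1, hg2, hg3⟩ := exists_power D hD (m + 1)
  have hDn : (0 : ℝ) < D.card := by exact_mod_cast hD.card_pos
  have hWn : (0 : ℝ) < W.card := by exact_mod_cast hWne.card_pos
  have hM0 : (0 : ℝ) < M := by exact_mod_cast Nat.pos_of_ne_zero (NeZero.ne M)
  have hsum' : ∑ x ∈ W, g x = 1 := by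
    rw [← hg1]
    refine Finset.sum_subset (Finset.subset_univ _) fun x _ h => ?_
    by_contra hne
    exact h (hW (hg2 x hne))
  have hcs : 1 ≤ (W.card : ℝ) * ∑ x, g x ^ 2 := by
    have h := sq_sum_le_card_mul_sum_sq (s := W) (f := g)
    rw [hsum', one_pow] at h
    refine h.trans (mul_le_mul_of_nonneg_left ?_ hWn.le)
    exact Finset.sum_le_sum_of_subset_of_nonneg (Finset.subset_univ _) fun _ _ _ => sq_nonneg _
  have hpar := parseval g
  have hin : ∀ x, ‖ft g x‖ ^ 2 ≤ (if x ∈ P then 1 else 0) +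
      (1 / 4 : ℝ) ^ m * (‖hat D x‖ ^ 2 / (D.card : ℝ) ^ 2) := by
    intro x
    have h1 : ‖hat D x‖ / D.card ≤ 1 := by
      rw [div_le_one hDn]
      exact norm_hat_le D x
    have h0 : 0 ≤ ‖hat D x‖ / D.card := by positivity
    rw [hg3]
    split_ifs with h
    · have h2 : ((‖hat D x‖ / D.card) ^ (m + 1)) ^ 2 ≤ 1 := pow_le_one₀ (by positivity)
        (pow_le_one₀ h0 h1)
      have h3 : 0 ≤ (1 / 4 : ℝ) ^ m * (‖hat D x‖ ^ 2 / (D.card : ℝ) ^ 2) := by positivity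
      linarith
    · have h2 : ‖hat D x‖ / D.card ≤ 1 / 2 := by
        rw [div_le_iff₀ hDn]
        linarith [hP x h]
      have h4 : (‖hat D x‖ / D.card) ^ 2 ≤ 1 / 4 := by
        calc (‖hat D x‖ / D.card) ^ 2 ≤ (1 / 2) ^ 2 := by gcongr
          _ = 1 / 4 := by norm_num
      calc ((‖hat D x‖ / D.card) ^ (m + 1)) ^ 2
          = ((‖hat D x‖ / D.card) ^ 2) ^ m * (‖hat D x‖ / D.card) ^ 2 := by
            rw [← pow_mul, mul_comm (m + 1) 2, pow_mul, pow_succ]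
        _ ≤ (1 / 4) ^ m * (‖hat D x‖ / D.card) ^ 2 := by gcongr
        _ = 0 + (1 / 4 : ℝ) ^ m * (‖hat D x‖ ^ 2 / (D.card : ℝ) ^ 2) := by
            rw [div_pow ‖hat D x‖, zero_add]
  have h5 : (M : ℝ) * ∑ a, g a ^ 2 ≤ P.card + (1 / 4) ^ m * (M / D.card) := by
    rw [← hpar]
    refine (Finset.sum_le_sum fun x _ => hin x).trans (le_of_eq ?_)
    rw [Finset.sum_add_distrib, ← Finset.mul_sum, ← Finset.sum_div, parseval_hat,
      Finset.sum_ite_mem, Finset.univ_inter]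
    simp only [Finset.sum_const, nsmul_eq_mul, mul_one]
    congr 2
    field_simp
  have h6 : (1 / 4 : ℝ) ^ m * (M / D.card) ≤ M / (2 * W.card) := by
    rw [div_pow, one_pow, one_div, inv_mul_le_iff₀ (by positivity), div_le_iff₀ hDn]
    rw [mul_div_assoc', div_mul_eq_mul_div, le_div_iff₀ (by positivity)]
    calc (M : ℝ) * (2 * W.card) ≤ M * (4 ^ m * D.card) := by gcongr
      _ = _ := by ring
  have h7 : (M : ℝ) ≤ W.card * (M * ∑ a, g a ^ 2) := by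
    calc (M : ℝ) = M * 1 := (mul_one _).symm
      _ ≤ M * (W.card * ∑ a, g a ^ 2) := by gcongr
      _ = _ := by ring
  have h8 : (W.card : ℝ) * (M * ∑ a, g a ^ 2) ≤ W.card * (P.card + M / (2 * W.card)) := by
    gcongr
    linarith
  have h9 : (W.card : ℝ) * (P.card + M / (2 * W.card)) = W.card * P.card + M / 2 := by
    field_simp
  linarith

theorem normSq_one_sub_sq {z : ℂ} (hz : ‖z‖ = 1) :
    ‖1 - z ^ 2‖ ^ 2 = ‖1 - z‖ ^ 2 * (4 - ‖1 - z‖ ^ 2) := by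
  have h2 : ‖z‖ ^ 2 = 1 := by rw [hz]; norm_num
  have h3 : ‖1 - z ^ 2‖ ^ 2 = ‖1 - z‖ ^ 2 * ‖1 + z‖ ^ 2 := by
    rw [← mul_pow, ← norm_mul]
    congr 2
    ring
  rw [h3]
  congr 1
  rw [← Complex.normSq_eq_norm_sq, Complex.normSq_apply] at h2
  rw [← Complex.normSq_eq_norm_sq, ← Complex.normSq_eq_norm_sq, Complex.normSq_apply,
    Complex.normSq_apply]
  simp only [Complex.sub_re, Complex.one_re, Complex.sub_im, Complex.one_im, Complex.add_re,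
    Complex.add_im]
  linarith

/-- halving on the circle -/
theorem halving_aux (h : ℕ) : ∀ {z : ℂ}, ‖z‖ = 1 → (∀ i ≤ h, ‖1 - z ^ (2 ^ i)‖ ≤ 1) →
    ‖1 - z‖ ^ 2 * (1 + ‖1 - z‖ ^ 2) ≤ 2 / 4 ^ h := by
  induction h with
  | zero =>
    intro z _ hn
    have h1 := hn 0 le_rfl
    rw [pow_zero, pow_one] at h1
    have h2 : ‖1 - z‖ ^ 2 ≤ 1 := pow_le_one₀ (norm_nonneg _) h1
    have h3 : 0 ≤ ‖1 - z‖ ^ 2 := sq_nonneg _
    rw [pow_zero, div_one]
    nlinarith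
  | succ h ih =>
    intro z hz hn
    have h1 := hn 0 (Nat.zero_le _)
    rw [pow_zero, pow_one] at h1
    have h2 : ‖1 - z‖ ^ 2 ≤ 1 := pow_le_one₀ (norm_nonneg _) h1
    have h3 : 0 ≤ ‖1 - z‖ ^ 2 := sq_nonneg _
    have h4 := ih (z := z ^ 2) (by rw [norm_pow, hz, one_pow]) (by
      intro i hi
      rw [← pow_mul, ← pow_succ']
      exact hn (i + 1) (by omega))
    rw [normSq_one_sub_sq hz] at h4
    obtain ⟨u, hu⟩ : ∃ u : ℝ, u = ‖1 - z‖ ^ 2 := ⟨_, rfl⟩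
    rw [← hu] at h2 h3 h4 ⊢
    have h5 : 4 * (u * (1 + u)) ≤ u * (4 - u) * (1 + u * (4 - u)) := by
      have e : u * (4 - u) * (1 + u * (4 - u)) - 4 * (u * (1 + u)) = u ^ 2 * (11 - 8 * u + u ^ 2) := by
        ring
      have : 0 ≤ u ^ 2 * (11 - 8 * u + u ^ 2) := by
        refine mul_nonneg (sq_nonneg _) ?_
        nlinarith
      linarith
    have h6 : (2 : ℝ) / 4 ^ (h + 1) = (2 / 4 ^ h) / 4 := by
      rw [pow_succ]; field_simp
    rw [h6, le_div_iff₀ (by norm_num)]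
    linarith

theorem nsmul_mem_fs {G : Type} [AddCommGroup G] [DecidableEq G] (C : Finset G) {ξ : G}
    (hξ : ξ ∈ C) (n : ℕ) : n • ξ ∈ fs C n := by
  induction n with
  | zero => simp [fs]
  | succ n ih =>
    rw [fs_succ, Finset.mem_add]
    exact ⟨_, ih, ξ, hξ, (succ_nsmul ξ n).symm⟩

theorem ps_nsmul (x : ZMod M) (n : ℕ) : ps (n • x) = ps x ^ n := AddChar.map_nsmul_eq_pow _ _ _

/-- HALVING. -/
theorem bo_halving (B C : Finset (ZMod M)) (h : ℕ) (hC : fs C (2 ^ h) ⊆ B)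
    (h0 : (0 : ZMod M) ∈ C) : bo B 1 ⊆ bo C (2 / 2 ^ h) := by
  intro x hx
  rw [mem_bo] at hx ⊢
  intro ξ hξ
  have h1 := halving_aux h (z := ps (x * ξ)) (norm_ps _) (by
    intro i hi
    rw [← ps_nsmul, ← mul_smul_comm]
    refine hx _ (hC ?_)
    exact fs_mono C h0 (Nat.pow_le_pow_right (by norm_num) hi) (nsmul_mem_fs C hξ _))
  have h3 : 0 ≤ ‖1 - ps (x * ξ)‖ ^ 2 := sq_nonneg _
  have h2 : ‖1 - ps (x * ξ)‖ ^ 2 ≤ (2 / 2 ^ h) ^ 2 := by
    have e : ((2 : ℝ) / 2 ^ h) ^ 2 = 4 / 4 ^ h := by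
      rw [div_pow, ← pow_mul, mul_comm h 2, pow_mul]
      norm_num
    rw [e]
    have e2 : (2 : ℝ) / 4 ^ h ≤ 4 / 4 ^ h := by gcongr; norm_num
    nlinarith
  exact (pow_le_pow_iff_left₀ (norm_nonneg _) (by positivity) (by norm_num)).1 h2

theorem bo_mono (B : Finset (ZMod M)) {s t : ℝ} (h : s ≤ t) : bo B s ⊆ bo B t := by
  intro x hx
  rw [mem_bo] at hx ⊢
  exact fun ξ hξ => (hx ξ hξ).trans h

theorem bo_sub (B : Finset (ZMod M)) {s t : ℝ} {x y : ZMod M} (hx : x ∈ bo B s)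
    (hy : y ∈ bo B t) : x - y ∈ bo B (s + t) := by
  rw [mem_bo] at hx hy ⊢
  intro ξ hξ
  have h1 := hx ξ hξ
  have h2 := hy ξ hξ
  have e : 1 - ps ((x - y) * ξ) = (1 - ps (x * ξ)) * (starRingEnd ℂ) (ps (y * ξ)) +
      (starRingEnd ℂ) (ps (y * ξ)) * (ps (y * ξ) - 1) := by
    rw [sub_mul x y ξ, ps_sub]
    have e2 : (starRingEnd ℂ) (ps (y * ξ)) * ps (y * ξ) = 1 := by
      rw [mul_comm, Complex.mul_conj, Complex.normSq_eq_norm_sq, norm_ps]
      norm_num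
    linear_combination -e2
  rw [e]
  refine (norm_add_le _ _).trans ?_
  rw [norm_mul, norm_mul, RCLike.norm_conj, norm_ps, mul_one, one_mul, norm_sub_rev (ps (y * ξ)) 1]
  exact add_le_add h1 h2

end Pool.Agent.PDual
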