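import Mathlib

/-!
# Fourier transform on `ZMod M`

`ps x = exp (2 π i x / M)`; `hat S x = ∑ ξ ∈ S, ps (x * ξ)`; `ft g x = ∑ ξ, g ξ * ps (x * ξ)`.
-/

set_option autoImplicit false

namespace Pool.Agent.PDual

open Finset

variable {M : ℕ} [NeZero M]

/-- the standard character of `ZMod M` -/
noncomputable def ps (x : ZMod M) : ℂ := ZMod.stdAddChar x

/-- Fourier transform of the indicator function of `S` -/
noncomputable def hat (S : Finset (ZMod M)) (x : ZMod M) : ℂ := ∑ ξ ∈ S, ps (x * ξ)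

/-- Fourier transform of a real function -/
noncomputable def ft (g : ZMod M → ℝ) (x : ZMod M) : ℂ := ∑ ξ, (g ξ : ℂ) * ps (x * ξ)

/-- the Bohr set of `B` of radius `τ` -/
noncomputable def bo (B : Finset (ZMod M)) (τ : ℝ) : Finset (ZMod M) := by
  classical
  exact Finset.univ.filter fun x => ∀ ξ ∈ B, ‖1 - ps (x * ξ)‖ ≤ τ

theorem mem_bo (B : Finset (ZMod M)) (τ : ℝ) (x : ZMod M) :
    x ∈ bo B τ ↔ ∀ ξ ∈ B, ‖1 - ps (x * ξ)‖ ≤ τ := by
  classical
  unfold bo
  simp

theorem ps_add (x y : ZMod M) : ps (x + y) = ps x * ps y := AddChar.map_add_eq_mul _ _ _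

theorem ps_zero : ps (0 : ZMod M) = 1 := AddChar.map_zero_eq_one _

theorem norm_ps (x : ZMod M) : ‖ps x‖ = 1 := AddChar.norm_apply _ _

theorem ps_neg (x : ZMod M) : ps (-x) = (starRingEnd ℂ) (ps x) := by
  have h : ps (-x) * ps x = 1 := by rw [← ps_add, neg_add_cancel, ps_zero]
  have h2 : (starRingEnd ℂ) (ps x) * ps x = 1 := by
    rw [mul_comm, Complex.mul_conj, Complex.normSq_eq_norm_sq, norm_ps]
    norm_num
  have h3 : ps x ≠ 0 := by
    intro h0
    have := norm_ps x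
    rw [h0, norm_zero] at this
    norm_num at this
  exact mul_right_cancel₀ h3 (h.trans h2.symm)

theorem ps_sub (x y : ZMod M) : ps (x - y) = ps x * (starRingEnd ℂ) (ps y) := by
  rw [sub_eq_add_neg, ps_add, ps_neg]

/-- orthogonality -/
theorem sum_ps (z : ZMod M) : ∑ x : ZMod M, ps (x * z) = if z = 0 then (M : ℂ) else 0 := by
  have h := AddChar.sum_mulShift z (ZMod.isPrimitive_stdAddChar M)
  rw [ZMod.card] at h
  exact_mod_cast h

theorem ft_normSq (g : ZMod M → ℝ) (x : ZMod M) :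
    ((‖ft g x‖ ^ 2 : ℝ) : ℂ) = ∑ a, ∑ b, (g a : ℂ) * g b * ps (x * (a - b)) := by
  have h : ((‖ft g x‖ ^ 2 : ℝ) : ℂ) = ft g x * (starRingEnd ℂ) (ft g x) := by
    rw [Complex.mul_conj, Complex.normSq_eq_norm_sq]
  rw [h]
  unfold ft
  rw [map_sum, Finset.sum_mul_sum]
  refine Finset.sum_congr rfl fun a _ => Finset.sum_congr rfl fun b _ => ?_
  rw [map_mul, Complex.conj_ofReal, mul_sub, ps_sub]
  ring

/-- Parseval -/
theorem parseval (g : ZMod M → ℝ) : ∑ x, ‖ft g x‖ ^ 2 = M * ∑ a, g a ^ 2 := by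
  have h : ((∑ x, ‖ft g x‖ ^ 2 : ℝ) : ℂ) = ((M * ∑ a, g a ^ 2 : ℝ) : ℂ) := by
    push_cast
    have h1 : ∀ x : ZMod M, ((‖ft g x‖ : ℂ)) ^ 2 = ∑ a, ∑ b, (g a : ℂ) * g b * ps (x * (a - b)) := by
      intro x
      have := ft_normSq g x
      push_cast at this
      exact this
    rw [Finset.sum_congr rfl fun x _ => h1 x, Finset.sum_comm, Finset.mul_sum]
    refine Finset.sum_congr rfl fun a _ => ?_
    rw [Finset.sum_comm]
    have h2 : ∀ b : ZMod M, ∑ x : ZMod M, (g a : ℂ) * g b * ps (x * (a - b)) =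
        if b = a then (M : ℂ) * (g a : ℂ) ^ 2 else 0 := by
      intro b
      rw [← Finset.mul_sum, sum_ps]
      by_cases hb : b = a
      · rw [if_pos hb, hb, sub_self, if_pos rfl]
        ring
      · rw [if_neg hb, if_neg (fun h => hb (sub_eq_zero.1 h).symm), mul_zero]
    rw [Finset.sum_congr rfl fun b _ => h2 b, Finset.sum_ite_eq']
    simp
  exact_mod_cast h

/-- indicator functions -/
noncomputable def ind (S : Finset (ZMod M)) (x : ZMod M) : ℝ := by
  classical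
  exact if x ∈ S then 1 else 0

theorem hat_eq_ft (S : Finset (ZMod M)) (x : ZMod M) : hat S x = ft (ind S) x := by
  classical
  unfold hat ft ind
  have h : ∀ ξ : ZMod M, (((if ξ ∈ S then (1 : ℝ) else 0 : ℝ)) : ℂ) * ps (x * ξ) =
      if ξ ∈ S then ps (x * ξ) else 0 := by
    intro ξ
    split_ifs <;> simp
  rw [Finset.sum_congr rfl fun ξ _ => h ξ, Finset.sum_ite_mem, Finset.univ_inter]

theorem sum_ind_sq (S : Finset (ZMod M)) : ∑ x, ind S x ^ 2 = S.card := by
  classical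
  unfold ind
  have h : ∀ x : ZMod M, (if x ∈ S then (1 : ℝ) else 0) ^ 2 = if x ∈ S then 1 else 0 := by
    intro x
    split_ifs <;> simp
  rw [Finset.sum_congr rfl fun x _ => h x, Finset.sum_ite_mem, Finset.univ_inter]
  simp

theorem parseval_hat (S : Finset (ZMod M)) : ∑ x, ‖hat S x‖ ^ 2 = M * S.card := by
  rw [Finset.sum_congr rfl fun x _ => by rw [hat_eq_ft S x], parseval, sum_ind_sq]

theorem hat_normSq (S : Finset (ZMod M)) (x : ZMod M) :
    ((‖hat S x‖ ^ 2 : ℝ) : ℂ) = ∑ a ∈ S, ∑ b ∈ S, ps (x * (a - b)) := by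
  have h : ((‖hat S x‖ ^ 2 : ℝ) : ℂ) = hat S x * (starRingEnd ℂ) (hat S x) := by
    rw [Complex.mul_conj, Complex.normSq_eq_norm_sq]
  rw [h]
  unfold hat
  rw [map_sum, Finset.sum_mul_sum]
  refine Finset.sum_congr rfl fun a _ => Finset.sum_congr rfl fun b _ => ?_
  rw [mul_sub, ps_sub]

theorem norm_hat_le (S : Finset (ZMod M)) (x : ZMod M) : ‖hat S x‖ ≤ S.card := by
  unfold hat
  refine (norm_sum_le _ _).trans ?_
  rw [Finset.sum_congr rfl fun ξ _ => norm_ps (x * ξ)]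
  simp

theorem norm_hat_neg (S : Finset (ZMod M)) (x : ZMod M) : ‖hat S (-x)‖ = ‖hat S x‖ := by
  have h : hat S (-x) = (starRingEnd ℂ) (hat S x) := by
    unfold hat
    rw [map_sum]
    refine Finset.sum_congr rfl fun ξ _ => ?_
    rw [neg_mul, ps_neg]
  rw [h, RCLike.norm_conj]

end Pool.Agent.PDual
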