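import Mathlib

/-!
# Regular sets inside a Bourgain system
-/

set_option autoImplicit false

namespace Pool.Agent.PDual

open Finset
open scoped Pointwise

variable {G : Type} [AddCommGroup G] [DecidableEq G]

/-- `t`-fold sums of elements of `B` -/
def fs (B : Finset G) : ℕ → Finset G
  | 0 => {0}
  | t + 1 => fs B t + B

theorem fs_succ (B : Finset G) (t : ℕ) : fs B (t + 1) = fs B t + B := rfl

theorem fs_add (B : Finset G) (s t : ℕ) : fs B (s + t) = fs B s + fs B t := by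
  induction t with
  | zero => simp [fs, Finset.add_singleton]
  | succ t ih => rw [← add_assoc, fs_succ, fs_succ, ih, add_assoc]

theorem fs_mono (B : Finset G) (h0 : (0 : G) ∈ B) {s t : ℕ} (h : s ≤ t) : fs B s ⊆ fs B t := by
  induction t with
  | zero =>
    have : s = 0 := by omega
    rw [this]
  | succ t ih =>
    rcases Nat.lt_or_ge s (t + 1) with h1 | h1
    · refine (ih (by omega)).trans ?_
      rw [fs_succ]
      intro x hx
      rw [Finset.mem_add]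
      exact ⟨x, hx, 0, h0, add_zero x⟩
    · have : s = t + 1 := by omega
      rw [this]

theorem fs_mono_set {B C : Finset G} (h : B ⊆ C) (t : ℕ) : fs B t ⊆ fs C t := by
  induction t with
  | zero => exact subset_rfl
  | succ t ih =>
    rw [fs_succ, fs_succ]
    exact Finset.add_subset_add ih h

/-- sums of `2 ^ s` elements of `B (i + s)` are in `B i` -/
theorem fs_sys (B : ℕ → Finset G) (h0 : ∀ i, (0 : G) ∈ B i)
    (hadd : ∀ i, ∀ x ∈ B (i + 1), ∀ y ∈ B (i + 1), x + y ∈ B i) (s : ℕ) (i : ℕ) :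
    fs (B (i + s)) (2 ^ s) ⊆ B i := by
  induction s generalizing i with
  | zero =>
    intro x hx
    simp only [pow_zero, add_zero] at hx
    change x ∈ ({0} : Finset G) + B i at hx
    rw [Finset.mem_add] at hx
    obtain ⟨a, ha, b, hb, rfl⟩ := hx
    rw [Finset.mem_singleton] at ha
    rw [ha, zero_add]
    exact hb
  | succ s ih =>
    intro x hx
    have h1 : (2 : ℕ) ^ (s + 1) = 2 ^ s + 2 ^ s := by ring
    rw [h1, fs_add, Finset.mem_add] at hx
    obtain ⟨a, ha, b, hb, rfl⟩ := hx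
    have e : i + (s + 1) = (i + 1) + s := by omega
    rw [e] at ha hb
    exact hadd i a (ih (i + 1) ha) b (ih (i + 1) hb)

theorem fs_sys_le (B : ℕ → Finset G) (h0 : ∀ i, (0 : G) ∈ B i)
    (hadd : ∀ i, ∀ x ∈ B (i + 1), ∀ y ∈ B (i + 1), x + y ∈ B i) (s : ℕ) (i t : ℕ)
    (ht : t ≤ 2 ^ s) : fs (B (i + s)) t ⊆ B i :=
  (fs_mono _ (h0 _) ht).trans (fs_sys B h0 hadd s i)

/-- REGULAR SET. PROOF. `D t = B (j + 1) + fs (B (j + 1 + s)) t`, `t ≤ 2 ^ s`; `D t ⊆ B j`
(`fs_sys_le`, `hadd`), `D (t + 1) = D t + B (j + 1 + s)`. If `|D (t + 1)| > 5/4 |D t|` for all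
`t < 2 ^ s` then `|B j| ≥ |D (2 ^ s)| ≥ (5/4) ^ (2 ^ s) |B (j + 1)|` (strictly, as `2 ^ s ≥ 1`), and
`(5/4) ^ (2 ^ s) ≥ exp (2 ^ s / 5) ≥ exp q` because `exp (1/5) ≤ 5/4`. -/
theorem exists_regular (B : ℕ → Finset G) (h0 : ∀ i, (0 : G) ∈ B i)
    (hadd : ∀ i, ∀ x ∈ B (i + 1), ∀ y ∈ B (i + 1), x + y ∈ B i) (j s : ℕ) {q : ℝ}
    (hq : ((B j).card : ℝ) ≤ Real.exp q * (B (j + 1)).card) (hs : 5 * q ≤ 2 ^ s) :
    ∃ D : Finset G, B (j + 1) ⊆ D ∧ D ⊆ B j ∧
      ((D + B (j + 1 + s)).card : ℝ) ≤ 5 / 4 * D.card := by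
  by_contra hcon
  push Not at hcon
  obtain ⟨D, hD⟩ : ∃ D : ℕ → Finset G, D = fun t => B (j + 1) + fs (B (j + 1 + s)) t := ⟨_, rfl⟩
  have hD0 : D 0 = B (j + 1) := by rw [hD]; simp [fs, Finset.add_singleton]
  have hDs : ∀ t, D (t + 1) = D t + B (j + 1 + s) := by
    intro t
    rw [hD]
    change B (j + 1) + (fs (B (j + 1 + s)) t + B (j + 1 + s)) = _
    exact (add_assoc _ _ _).symm
  have hDsub : ∀ t, B (j + 1) ⊆ D t := by
    intro t x hx
    rw [hD, Finset.mem_add]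
    refine ⟨x, hx, 0, ?_, add_zero x⟩
    exact fs_mono _ (h0 _) (Nat.zero_le t) (by simp [fs])
  have hDj : ∀ t, t ≤ 2 ^ s → D t ⊆ B j := by
    intro t ht x hx
    rw [hD, Finset.mem_add] at hx
    obtain ⟨a, ha, b, hb, rfl⟩ := hx
    exact hadd j a ha b (fs_sys_le B h0 hadd s (j + 1) t ht hb)
  have hpos : (0 : ℝ) < (B (j + 1)).card := by
    exact_mod_cast Finset.card_pos.2 ⟨0, h0 _⟩
  have hgrow : ∀ t, t ≤ 2 ^ s → (5 / 4 : ℝ) ^ t * (B (j + 1)).card ≤ (D t).card := by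
    intro t
    induction t with
    | zero => intro _; rw [hD0]; simp
    | succ t ih =>
      intro ht
      have h1 := ih (by omega)
      have h2 := hcon (D t) (hDsub t) (hDj t (by omega))
      rw [← hDs] at h2
      rw [pow_succ]
      calc (5 / 4 : ℝ) ^ t * (5 / 4) * (B (j + 1)).card
          = 5 / 4 * ((5 / 4 : ℝ) ^ t * (B (j + 1)).card) := by ring
        _ ≤ 5 / 4 * (D t).card := by gcongr
        _ ≤ _ := h2.le
  have h1 : (1 : ℕ) ≤ 2 ^ s := Nat.one_le_two_pow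
  obtain ⟨u, hu⟩ : ∃ u, 2 ^ s = u + 1 := ⟨2 ^ s - 1, by omega⟩
  have h2 := hgrow u (by omega)
  have h3 := hcon (D u) (hDsub u) (hDj u (by omega))
  rw [← hDs, ← hu] at h3
  have h4 : ((D (2 ^ s)).card : ℝ) ≤ (B j).card := by
    exact_mod_cast Finset.card_le_card (hDj _ le_rfl)
  have h5 : (5 / 4 : ℝ) ^ (2 ^ s) * (B (j + 1)).card < (B j).card := by
    calc (5 / 4 : ℝ) ^ (2 ^ s) * (B (j + 1)).card
        = 5 / 4 * ((5 / 4 : ℝ) ^ u * (B (j + 1)).card) := by rw [hu, pow_succ]; ring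
      _ ≤ 5 / 4 * (D u).card := by gcongr
      _ < (D (2 ^ s)).card := h3
      _ ≤ _ := h4
  have h6 : Real.exp q ≤ (5 / 4 : ℝ) ^ (2 ^ s) := by
    have e1 : Real.exp (1 / 5) ≤ 5 / 4 := by
      have e2 : (Real.exp (1 / 5)) ^ 5 = Real.exp 1 := by
        rw [← Real.exp_nat_mul]; norm_num
      have e3 := Real.exp_one_lt_d9
      by_contra hc
      push Not at hc
      have e4 : (5 / 4 : ℝ) ^ 5 < (Real.exp (1 / 5)) ^ 5 := by
        gcongr
      rw [e2] at e4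
      norm_num at e4
      linarith
    calc Real.exp q ≤ Real.exp ((2 ^ s : ℕ) * (1 / 5)) := by
          refine Real.exp_le_exp.2 ?_
          push_cast
          linarith
      _ = Real.exp (1 / 5) ^ (2 ^ s) := by rw [← Real.exp_nat_mul]
      _ ≤ _ := by gcongr
  have h7 : Real.exp q * (B (j + 1)).card ≤ (5 / 4 : ℝ) ^ (2 ^ s) * (B (j + 1)).card := by gcongr
  linarith

end Pool.Agent.PDual
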