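import Pool.Agent.W_626p_h88.Four
import Pool.Agent.W_626p_h88.Reg

/-!
# Decay of the Fourier transform outside a Bohr set, powers, the dense piece
-/

set_option autoImplicit false

namespace Pool.Agent.PDual

open Finset
open scoped Pointwise

variable {M : ℕ} [NeZero M]

/-- DECAY. -/
theorem decay (D B : Finset (ZMod M)) (h0 : (0 : ZMod M) ∈ B)
    (h : ((D + B).card : ℝ) ≤ 5 / 4 * D.card) (x : ZMod M) (hx : x ∉ bo B 1) :
    ‖hat D x‖ ≤ D.card / 2 := by
  classical
  rw [mem_bo] at hx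
  push Not at hx
  obtain ⟨ξ, hξ, h1⟩ := hx
  obtain ⟨D', hD'⟩ : ∃ D' : Finset (ZMod M), D' = D.image (fun y => y + ξ) := ⟨_, rfl⟩
  have hcard : D'.card = D.card := by
    rw [hD']; exact Finset.card_image_of_injective _ (add_left_injective ξ)
  have hsum : ps (x * ξ) * hat D x = hat D' x := by
    unfold hat
    rw [hD', Finset.sum_image (fun a _ b _ hab => add_left_injective ξ hab), Finset.mul_sum]
    refine Finset.sum_congr rfl fun y _ => ?_
    rw [mul_add, ps_add, mul_comm]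
  have hsub : D ∪ D' ⊆ D + B := by
    intro y hy
    rw [Finset.mem_union] at hy
    rcases hy with hy | hy
    · exact Finset.mem_add.2 ⟨y, hy, 0, h0, add_zero y⟩
    · rw [hD', Finset.mem_image] at hy
      obtain ⟨z, hz, rfl⟩ := hy
      exact Finset.mem_add.2 ⟨z, hz, ξ, hξ, rfl⟩
  have hc1 : ((D ∪ D').card : ℝ) ≤ 5 / 4 * D.card := by
    refine le_trans ?_ h
    exact_mod_cast Finset.card_le_card hsub
  have hc2 : (D ∪ D').card = D.card + (D' \ D).card := by
    rw [← Finset.union_sdiff_self_eq_union, Finset.card_union_of_disjoint Finset.disjoint_sdiff]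
  have hc3 : (D ∪ D').card = D'.card + (D \ D').card := by
    rw [Finset.union_comm, ← Finset.union_sdiff_self_eq_union,
      Finset.card_union_of_disjoint Finset.disjoint_sdiff]
  have hd1 : ((D' \ D).card : ℝ) ≤ D.card / 4 := by
    have : ((D ∪ D').card : ℝ) = D.card + (D' \ D).card := by exact_mod_cast hc2
    linarith
  have hd2 : ((D \ D').card : ℝ) ≤ D.card / 4 := by
    have : ((D ∪ D').card : ℝ) = D.card + (D \ D').card := by
      rw [← hcard]; exact_mod_cast hc3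
    linarith
  have hdiff : hat D x - hat D' x = hat (D \ D') x - hat (D' \ D) x := by
    unfold hat
    exact (Finset.sum_sdiff_sub_sum_sdiff).symm
  have hle : ‖hat D x - hat D' x‖ ≤ D.card / 2 := by
    rw [hdiff]
    calc ‖hat (D \ D') x - hat (D' \ D) x‖ ≤ ‖hat (D \ D') x‖ + ‖hat (D' \ D) x‖ := norm_sub_le _ _
      _ ≤ (D \ D').card + (D' \ D).card := add_le_add (norm_hat_le _ _) (norm_hat_le _ _)
      _ ≤ _ := by linarith
  have heq : ‖hat D x - hat D' x‖ = ‖1 - ps (x * ξ)‖ * ‖hat D x‖ := by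
    rw [← hsum, ← norm_mul]
    congr 1
    ring
  rw [heq] at hle
  have h2 : 1 * ‖hat D x‖ ≤ ‖1 - ps (x * ξ)‖ * ‖hat D x‖ :=
    mul_le_mul_of_nonneg_right h1.le (norm_nonneg _)
  linarith

/-- POWERS: a probability density on `m`-fold sums with Fourier transform `(hat D / |D|) ^ m`. -/
theorem exists_power (D : Finset (ZMod M)) (hD : D.Nonempty) (m : ℕ) :
    ∃ g : ZMod M → ℝ, (∀ x, 0 ≤ g x) ∧ ∑ x, g x = 1 ∧ (∀ x, g x ≠ 0 → x ∈ fs D m) ∧
      ∀ x, ‖ft g x‖ = (‖hat D x‖ / D.card) ^ m := by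
  classical
  have hn : (0 : ℝ) < D.card := by exact_mod_cast hD.card_pos
  induction m with
  | zero =>
    refine ⟨fun x => if x = 0 then 1 else 0, ?_, ?_, ?_, ?_⟩
    · intro x
      simp only
      split_ifs <;> norm_num
    · simp
    · intro x hx
      by_cases h : x = 0
      · rw [h]; simp [fs]
      · simp [h] at hx
    · intro x
      unfold ft
      have h : ∀ ξ : ZMod M, (((if ξ = 0 then (1 : ℝ) else 0 : ℝ)) : ℂ) * ps (x * ξ) =
          if ξ = 0 then ps (x * ξ) else 0 := by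
        intro ξ
        split_ifs <;> simp
      rw [Finset.sum_congr rfl fun ξ _ => h ξ, Finset.sum_ite_eq']
      simp [norm_ps]
  | succ m ih =>
    obtain ⟨g, hg0, hg1, hg2, hg3⟩ := ih
    refine ⟨fun x => (D.card : ℝ)⁻¹ * ∑ d ∈ D, g (x - d), ?_, ?_, ?_, ?_⟩
    · intro x
      have : 0 ≤ ∑ d ∈ D, g (x - d) := Finset.sum_nonneg fun d _ => hg0 _
      positivity
    · rw [← Finset.mul_sum, Finset.sum_comm]
      have h : ∀ d ∈ D, ∑ x, g (x - d) = 1 := by
        intro d _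
        rw [← hg1]
        exact Fintype.sum_equiv (Equiv.subRight d) _ _ fun x => rfl
      rw [Finset.sum_congr rfl h]
      simp only [Finset.sum_const, nsmul_eq_mul, mul_one]
      exact inv_mul_cancel₀ hn.ne'
    · intro x hx
      have h1 : ∑ d ∈ D, g (x - d) ≠ 0 := fun h => hx (by simp only [h, mul_zero])
      obtain ⟨d, hd, hgd⟩ := Finset.exists_ne_zero_of_sum_ne_zero h1
      rw [fs_succ, Finset.mem_add]
      exact ⟨x - d, hg2 _ hgd, d, hd, sub_add_cancel x d⟩
    · intro x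
      have h : ft (fun x => (D.card : ℝ)⁻¹ * ∑ d ∈ D, g (x - d)) x =
          ((D.card : ℝ)⁻¹ : ℂ) * (hat D x * ft g x) := by
        unfold ft hat
        have e1 : ∀ ξ : ZMod M, ((((D.card : ℝ)⁻¹ * ∑ d ∈ D, g (ξ - d) : ℝ)) : ℂ) * ps (x * ξ) =
            ((D.card : ℝ)⁻¹ : ℂ) * ∑ d ∈ D, (g (ξ - d) : ℂ) * ps (x * ξ) := by
          intro ξ
          push_cast
          rw [Finset.mul_sum, Finset.sum_mul, Finset.mul_sum]
          refine Finset.sum_congr rfl fun d _ => ?_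
          ring
        rw [Finset.sum_congr rfl fun ξ _ => e1 ξ, ← Finset.mul_sum, Finset.sum_comm]
        congr 1
        rw [Finset.sum_mul]
        refine Finset.sum_congr rfl fun d _ => ?_
        rw [Finset.mul_sum]
        refine Fintype.sum_equiv (Equiv.subRight d) _ _ fun ξ => ?_
        have e2 : x * ξ = x * d + x * (ξ - d) := by ring
        rw [Equiv.subRight_apply, e2, ps_add]
        ring
      rw [h, norm_mul, norm_mul, hg3, pow_succ]
      have e3 : ‖((D.card : ℝ)⁻¹ : ℂ)‖ = (D.card : ℝ)⁻¹ := by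
        rw [← Complex.ofReal_inv, Complex.norm_real, Real.norm_of_nonneg (by positivity)]
      rw [e3]
      ring

/-- THE DENSE PIECE. -/
theorem dense_piece (A S Z P D : Finset (ZMod M)) (hS : S.Nonempty) (hD : D.Nonempty) (m : ℕ)
    (hmD : fs D m ⊆ Z) {E τ : ℝ} (hE : 0 < E)
    (hSZ : ((S + Z).card : ℝ) ≤ E * S.card)
    (hA : ∀ ξ ∈ S, τ * (A.card : ℝ) ^ 2 ≤ ‖hat A ξ‖ ^ 2) (hτ : 0 ≤ τ)
    (hP : ∀ x, x ∉ P → ‖hat D x‖ ≤ D.card / 2) (hm : 2 * E ≤ 4 ^ m * τ) :
    τ / (2 * E) * (A.card : ℝ) ^ 2 ≤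
      (((A ×ˢ A).filter fun p => p.1 - p.2 ∈ P).card : ℝ) := by
  classical
  obtain ⟨g, hg0, hg1, hg2, hg3⟩ := exists_power D hD m
  have hDn : (0 : ℝ) < D.card := by exact_mod_cast hD.card_pos
  have hSn : (0 : ℝ) < S.card := by exact_mod_cast hS.card_pos
  obtain ⟨F, hF⟩ : ∃ F : ZMod M → ℝ, F = fun η => ‖hat A η‖ ^ 2 := ⟨_, rfl⟩
  -- the identity
  have hid : ∑ x ∈ A, ∑ y ∈ A, hat S (x - y) * ((‖ft g (x - y)‖ ^ 2 : ℝ) : ℂ) =
      ((∑ ξ ∈ S, ∑ a, ∑ b, g a * g b * F (ξ + (a - b)) : ℝ) : ℂ) := by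
    have hL : ∀ x y : ZMod M, hat S (x - y) * ((‖ft g (x - y)‖ ^ 2 : ℝ) : ℂ) =
        ∑ ξ ∈ S, ∑ a, ∑ b, (g a : ℂ) * g b * ps ((ξ + (a - b)) * (x - y)) := by
      intro x y
      rw [ft_normSq]
      unfold hat
      rw [Finset.sum_mul]
      refine Finset.sum_congr rfl fun ξ _ => ?_
      rw [Finset.mul_sum]
      refine Finset.sum_congr rfl fun a _ => ?_
      rw [Finset.mul_sum]
      refine Finset.sum_congr rfl fun b _ => ?_
      have e : (ξ + (a - b)) * (x - y) = (x - y) * ξ + (x - y) * (a - b) := by ring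
      rw [e, ps_add]
      ring
    rw [← Finset.sum_product', Finset.sum_congr rfl fun p _ => hL p.1 p.2, Finset.sum_comm]
    push_cast
    refine Finset.sum_congr rfl fun ξ _ => ?_
    rw [Finset.sum_comm]
    refine Finset.sum_congr rfl fun a _ => ?_
    rw [Finset.sum_comm]
    refine Finset.sum_congr rfl fun b _ => ?_
    rw [← Finset.mul_sum, hF]
    congr 1
    have h := hat_normSq A (ξ + (a - b))
    rw [← Finset.sum_product'] at h
    exact h.symm
  -- lower bound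
  have hlow : τ * (A.card : ℝ) ^ 2 * (S.card / E) ≤
      ∑ ξ ∈ S, ∑ a, ∑ b, g a * g b * F (ξ + (a - b)) := by
    obtain ⟨r, hr⟩ : ∃ r : ZMod M → ℝ, r = fun η => ∑ ξ ∈ S, g (η - ξ) := ⟨_, rfl⟩
    have hrsum : ∑ η, r η = S.card := by
      rw [hr, Finset.sum_comm]
      have h : ∀ ξ ∈ S, ∑ η, g (η - ξ) = 1 := by
        intro ξ _
        rw [← hg1]
        exact Fintype.sum_equiv (Equiv.subRight ξ) _ _ fun x => rfl
      rw [Finset.sum_congr rfl h]
      simp
    have hrsup : ∀ η, η ∉ S + Z → r η = 0 := by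
      intro η hη
      rw [hr]
      refine Finset.sum_eq_zero fun ξ hξ => ?_
      by_contra hne
      exact hη (Finset.mem_add.2 ⟨ξ, hξ, η - ξ, hmD (hg2 _ hne), add_sub_cancel ξ η⟩)
    have hrsum' : ∑ η ∈ S + Z, r η = S.card := by
      rw [← hrsum]
      exact Finset.sum_subset (Finset.subset_univ _) fun η _ h => hrsup η h
    have hcs : (S.card : ℝ) ^ 2 ≤ (S + Z).card * ∑ η, r η ^ 2 := by
      rw [← hrsum']
      refine sq_sum_le_card_mul_sum_sq.trans ?_
      refine mul_le_mul_of_nonneg_left ?_ (Nat.cast_nonneg _)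
      exact Finset.sum_le_sum_of_subset_of_nonneg (Finset.subset_univ _) fun _ _ _ => sq_nonneg _
    have hr2 : (S.card : ℝ) / E ≤ ∑ η, r η ^ 2 := by
      have h0 : 0 ≤ ∑ η, r η ^ 2 := Finset.sum_nonneg fun _ _ => sq_nonneg _
      rw [div_le_iff₀ hE]
      refine le_of_mul_le_mul_left ?_ hSn
      calc (S.card : ℝ) * S.card = (S.card : ℝ) ^ 2 := by ring
        _ ≤ (S + Z).card * ∑ η, r η ^ 2 := hcs
        _ ≤ (E * S.card) * ∑ η, r η ^ 2 := by gcongr
        _ = _ := by ring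
    have hreq : ∑ η, r η ^ 2 = ∑ ξ ∈ S, ∑ a, ∑ b, g a * g b *
        (if ξ + (a - b) ∈ S then 1 else 0) := by
      have e1 : ∀ η, r η ^ 2 = ∑ ξ ∈ S, ∑ ξ' ∈ S, g (η - ξ) * g (η - ξ') := by
        intro η
        rw [hr, sq, Finset.sum_mul_sum]
      rw [Finset.sum_congr rfl fun η _ => e1 η, Finset.sum_comm]
      refine Finset.sum_congr rfl fun ξ _ => ?_
      refine Fintype.sum_equiv (Equiv.subRight ξ) _ _ fun η => ?_
      rw [Equiv.subRight_apply]
      have e2 : ∑ b, g (η - ξ) * g b * (if ξ + (η - ξ - b) ∈ S then 1 else 0) =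
          ∑ ξ', (if ξ' ∈ S then g (η - ξ) * g (η - ξ') else 0) := by
        refine Fintype.sum_equiv (Equiv.subLeft η) _ _ fun b => ?_
        rw [Equiv.subLeft_apply, sub_sub_cancel]
        have e3 : ξ + (η - ξ - b) = η - b := by ring
        rw [e3]
        split_ifs <;> simp
      rw [e2, Finset.sum_ite_mem, Finset.univ_inter]
    calc τ * (A.card : ℝ) ^ 2 * (S.card / E) ≤ τ * (A.card : ℝ) ^ 2 * ∑ η, r η ^ 2 := by gcongr
      _ = ∑ ξ ∈ S, ∑ a, ∑ b, g a * g b * (if ξ + (a - b) ∈ S then τ * (A.card : ℝ) ^ 2 else 0) := by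
          rw [hreq, Finset.mul_sum]
          refine Finset.sum_congr rfl fun ξ _ => ?_
          rw [Finset.mul_sum]
          refine Finset.sum_congr rfl fun a _ => ?_
          rw [Finset.mul_sum]
          refine Finset.sum_congr rfl fun b _ => ?_
          split_ifs <;> ring
      _ ≤ _ := by
          refine Finset.sum_le_sum fun ξ _ => Finset.sum_le_sum fun a _ =>
            Finset.sum_le_sum fun b _ => ?_
          refine mul_le_mul_of_nonneg_left ?_ (mul_nonneg (hg0 a) (hg0 b))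
          split_ifs with h
          · rw [hF]; exact hA _ h
          · rw [hF]; positivity
  -- upper bound
  have hup : ‖∑ x ∈ A, ∑ y ∈ A, hat S (x - y) * ((‖ft g (x - y)‖ ^ 2 : ℝ) : ℂ)‖ ≤
      S.card * ((((A ×ˢ A).filter fun p => p.1 - p.2 ∈ P).card : ℝ) +
        (A.card : ℝ) ^ 2 * (1 / 4) ^ m) := by
    have hft1 : ∀ z, ‖ft g z‖ ^ 2 ≤ 1 := by
      intro z
      rw [hg3]
      have h : ‖hat D z‖ / D.card ≤ 1 := by
        rw [div_le_one hDn]
        exact norm_hat_le D z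
      exact pow_le_one₀ (by positivity) (pow_le_one₀ (by positivity) h)
    have hft2 : ∀ z, z ∉ P → ‖ft g z‖ ^ 2 ≤ (1 / 4) ^ m := by
      intro z hz
      rw [hg3, ← pow_mul, mul_comm m 2, pow_mul]
      refine pow_le_pow_left₀ (by positivity) ?_ m
      have h : ‖hat D z‖ / D.card ≤ 1 / 2 := by
        rw [div_le_iff₀ hDn]
        linarith [hP z hz]
      calc (‖hat D z‖ / D.card) ^ 2 ≤ (1 / 2) ^ 2 := by gcongr
        _ = 1 / 4 := by norm_num
    calc ‖∑ x ∈ A, ∑ y ∈ A, hat S (x - y) * ((‖ft g (x - y)‖ ^ 2 : ℝ) : ℂ)‖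
        ≤ ∑ p ∈ A ×ˢ A, ‖hat S (p.1 - p.2) * ((‖ft g (p.1 - p.2)‖ ^ 2 : ℝ) : ℂ)‖ := by
          rw [← Finset.sum_product']
          exact norm_sum_le _ _
      _ ≤ ∑ p ∈ A ×ˢ A, (S.card : ℝ) * ((if p.1 - p.2 ∈ P then 1 else 0) + (1 / 4) ^ m) := by
          refine Finset.sum_le_sum fun p _ => ?_
          rw [norm_mul, Complex.norm_real, Real.norm_of_nonneg (by positivity)]
          have h1 := norm_hat_le S (p.1 - p.2)
          have h2 : ‖ft g (p.1 - p.2)‖ ^ 2 ≤
              (if p.1 - p.2 ∈ P then 1 else 0) + (1 / 4 : ℝ) ^ m := by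
            have h5 : (0 : ℝ) < (1 / 4) ^ m := by positivity
            split_ifs with h
            · linarith [hft1 (p.1 - p.2)]
            · linarith [hft2 _ h]
          gcongr
      _ = _ := by
          rw [← Finset.mul_sum, Finset.sum_add_distrib, Finset.sum_boole, Finset.sum_const,
            Finset.card_product, nsmul_eq_mul]
          push_cast
          ring
  rw [hid, Complex.norm_real, Real.norm_eq_abs] at hup
  have h1 := hlow.trans ((le_abs_self _).trans hup)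
  have h2 : τ * (A.card : ℝ) ^ 2 / E ≤
      (((A ×ˢ A).filter fun p => p.1 - p.2 ∈ P).card : ℝ) + (A.card : ℝ) ^ 2 * (1 / 4) ^ m := by
    refine le_of_mul_le_mul_left ?_ hSn
    calc (S.card : ℝ) * (τ * (A.card : ℝ) ^ 2 / E) = τ * (A.card : ℝ) ^ 2 * (S.card / E) := by ring
      _ ≤ _ := h1
  have h3 : ((1 : ℝ) / 4) ^ m ≤ τ / (2 * E) := by
    rw [le_div_iff₀ (by positivity), div_pow, one_pow, one_div, inv_mul_le_iff₀ (by positivity)]
    exact hm
  have h4 : (A.card : ℝ) ^ 2 * (1 / 4) ^ m ≤ (A.card : ℝ) ^ 2 * (τ / (2 * E)) := by gcongr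
  have h5 : τ * (A.card : ℝ) ^ 2 / E = 2 * (τ / (2 * E) * (A.card : ℝ) ^ 2) := by
    field_simp
  linarith

end Pool.Agent.PDual
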